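import Pool.Agent.Helper64.RF.GoalsF

/-!
F-LSD: radial parallel transport depends smoothly on the end point.
-/

open MeasureTheory Set

namespace Pool.Agent.Helper2.RF

open Pool.Agent.Helper64.RF

section General

variable {R : Type*} [NormedRing R] [NormedAlgebra ℝ R]

lemma unit_of_summable (x : R) (h : Summable (fun n : ℕ => x ^ n)) : IsUnit (1 - x) :=
  ⟨⟨1 - x, ∑' n : ℕ, x ^ n, h.one_sub_mul_tsum_pow, h.tsum_pow_mul_one_sub⟩, rfl⟩

lemma inv_contDiff [CompleteSpace R] {V : Type*} [NormedAddCommGroup V] [NormedSpace ℝ V]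
    (f : V → R) (hf : ContDiff ℝ (⊤ : ℕ∞) f) (hu : ∀ v, IsUnit (1 - f v)) :
    ContDiff ℝ (⊤ : ℕ∞) (fun v => Ring.inverse (1 - f v)) := by
  rw [contDiff_iff_contDiffAt]
  intro p
  obtain ⟨u, hu⟩ := hu p
  have h1 := contDiffAt_ringInverse ℝ (n := ((⊤ : ℕ∞) : WithTop ℕ∞)) u
  rw [hu] at h1
  exact h1.comp p (contDiff_const.sub hf).contDiffAt

lemma comp_mul_contDiff (K : R →L[ℝ] R) :
    ContDiff ℝ (⊤ : ℕ∞) (fun p : R => K.comp (ContinuousLinearMap.mul ℝ R p)) := by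
  have h : ContDiff ℝ (⊤ : ℕ∞) (fun p : R => ContinuousLinearMap.mul ℝ R p) :=
    (ContinuousLinearMap.mul ℝ R).contDiff
  exact contDiff_const.clm_comp h

lemma inv_solve (T : R →L[ℝ] R) (hT : IsUnit (1 - T)) :
    Ring.inverse (1 - T) 1 = 1 + T (Ring.inverse (1 - T) 1) := by
  have h : (1 - T) (Ring.inverse (1 - T) 1) = 1 := by
    have h1 := congrArg (fun S : R →L[ℝ] R => S 1) (Ring.mul_inverse_cancel _ hT)
    exact h1
  rw [_root_.sub_apply] at h
  exact eq_add_of_sub_eq h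

lemma inv_unique (T : R →L[ℝ] R) (hT : IsUnit (1 - T)) (z : R) (h : z = 1 + T z) :
    z = Ring.inverse (1 - T) 1 := by
  have h1 : (1 - T) z = 1 := by
    rw [_root_.sub_apply]
    exact sub_eq_of_eq_add h
  rw [← h1]
  have h2 := congrArg (fun S : R →L[ℝ] R => S z) (Ring.inverse_mul_cancel _ hT)
  exact h2.symm

end General

section Volterra

/-- Continuous functions on `[0,1]` as a Banach algebra. -/
def Z (A : Type*) [NormedRing A] : Type _ := C(Icc (0:ℝ) 1, A)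

variable {A : Type*} [NormedRing A] [NormedAlgebra ℝ A] [CompleteSpace A]

noncomputable instance instRingZ : NormedRing (Z A) :=
  inferInstanceAs (NormedRing C(Icc (0:ℝ) 1, A))

noncomputable instance instAlgZ : NormedAlgebra ℝ (Z A) :=
  inferInstanceAs (NormedAlgebra ℝ C(Icc (0:ℝ) 1, A))

instance instCompleteZ : CompleteSpace (Z A) :=
  inferInstanceAs (CompleteSpace C(Icc (0:ℝ) 1, A))

/-- Values. -/
def va (z : Z A) (r : Icc (0:ℝ) 1) : A := ContinuousMap.toFun z r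

/-- Extension of a continuous function on `[0,1]` to the line. -/
noncomputable def ex (z : Z A) : ℝ → A := IccExtend zero_le_one (va z)

lemma va_cont (z : Z A) : Continuous (va z) := ContinuousMap.continuous_toFun z

lemma ex_cont (z : Z A) : Continuous (ex z) := (va_cont z).Icc_extend'

lemma ex_val (z : Z A) (s : Icc (0:ℝ) 1) : ex z s = va z s :=
  IccExtend_val zero_le_one _ s

lemma ex_mem (z : Z A) {s : ℝ} (hs : s ∈ Icc (0:ℝ) 1) : ex z s = va z ⟨s, hs⟩ :=
  IccExtend_of_mem zero_le_one _ hs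

lemma va_norm (z : Z A) (s : Icc (0:ℝ) 1) : ‖va z s‖ ≤ ‖z‖ :=
  ContinuousMap.norm_coe_le_norm (E := A) (z : C(Icc (0:ℝ) 1, A)) s

lemma norm_le' (z : Z A) {C : ℝ} (hC : 0 ≤ C) (h : ∀ s, ‖va z s‖ ≤ C) : ‖z‖ ≤ C :=
  (ContinuousMap.norm_le (E := A) (z : C(Icc (0:ℝ) 1, A)) hC).2 h

lemma ex_norm (z : Z A) (s : ℝ) : ‖ex z s‖ ≤ ‖z‖ := va_norm z _

lemma va_ext {x y : Z A} (h : ∀ s, va x s = va y s) : x = y := ContinuousMap.ext h

lemma va_add (x y : Z A) (s : Icc (0:ℝ) 1) : va (x + y) s = va x s + va y s := rfl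

lemma va_smul (c : ℝ) (y : Z A) (s : Icc (0:ℝ) 1) : va (c • y) s = c • va y s := rfl

lemma va_mul (x y : Z A) (s : Icc (0:ℝ) 1) : va (x * y) s = va x s * va y s := rfl

lemma va_one (s : Icc (0:ℝ) 1) : va (1 : Z A) s = 1 := rfl

/-- Integration from 0, as a function. -/
noncomputable def Kf (z : Z A) : Z A :=
  (⟨fun r => ∫ s in (0:ℝ)..r, ex z s,
    (intervalIntegral.continuous_primitive
      (fun a b => (ex_cont z).intervalIntegrable a b) 0).comp continuous_subtype_val⟩ :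
      C(Icc (0:ℝ) 1, A))

lemma Kf_apply (z : Z A) (r : Icc (0:ℝ) 1) :
    va (Kf z) r = ∫ s in (0:ℝ)..r, ex z s := rfl

/-- Integration from 0. -/
noncomputable def KK : Z A →L[ℝ] Z A :=
  LinearMap.mkContinuous
    { toFun := Kf
      map_add' := by
        intro x y
        apply va_ext
        intro r
        rw [va_add, Kf_apply, Kf_apply, Kf_apply,
          ← intervalIntegral.integral_add ((ex_cont x).intervalIntegrable _ _)
            ((ex_cont y).intervalIntegrable _ _)]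
        rfl
      map_smul' := by
        intro c x
        apply va_ext
        intro r
        rw [RingHom.id_apply, va_smul, Kf_apply, Kf_apply,
          ← intervalIntegral.integral_smul]
        rfl } 1 (by
      intro z
      rw [one_mul]
      refine norm_le' _ (norm_nonneg _) ?_
      intro r
      change ‖∫ s in (0:ℝ)..r, ex z s‖ ≤ _
      refine (intervalIntegral.norm_integral_le_of_norm_le_const
        (fun s _ => ex_norm z s)).trans ?_
      rw [sub_zero, abs_of_nonneg r.2.1]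
      exact mul_le_of_le_one_right (norm_nonneg _) r.2.2)

lemma KK_apply (z : Z A) (r : Icc (0:ℝ) 1) :
    va (KK z) r = ∫ s in (0:ℝ)..r, ex z s := rfl

/-- The Volterra operator with kernel `p`. -/
noncomputable def TT (p : Z A) : Z A →L[ℝ] Z A :=
  KK.comp (ContinuousLinearMap.mul ℝ (Z A) p)

lemma TT_apply (p z : Z A) (r : Icc (0:ℝ) 1) :
    va (TT p z) r = ∫ s in (0:ℝ)..r, ex p s * ex z s := rfl

lemma TT_pow (p z : Z A) (n : ℕ) (r : Icc (0:ℝ) 1) :
    ‖va (((TT p) ^ n) z) r‖ ≤ (‖p‖ * r) ^ n / n.factorial * ‖z‖ := by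
  induction n generalizing r with
  | zero => simpa using va_norm z r
  | succ n ih =>
    have e0 : ((TT p) ^ (n+1)) z = TT p (((TT p) ^ n) z) := by
      rw [pow_succ']
      rfl
    rw [e0, TT_apply]
    have hr := r.2.1
    have h1 : ∀ s ∈ uIcc (0:ℝ) r, ‖ex p s * ex ((TT p ^ n) z) s‖ ≤
        ‖p‖ ^ (n+1) / n.factorial * ‖z‖ * s ^ n := by
      intro s hs
      rw [uIcc_of_le hr] at hs
      have hs' : s ∈ Icc (0:ℝ) 1 := ⟨hs.1, hs.2.trans r.2.2⟩
      calc ‖ex p s * ex ((TT p ^ n) z) s‖ ≤ ‖ex p s‖ * ‖ex ((TT p ^ n) z) s‖ := norm_mul_le _ _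
        _ ≤ ‖p‖ * ((‖p‖ * s) ^ n / n.factorial * ‖z‖) := by
            refine mul_le_mul (ex_norm _ _) ?_ (norm_nonneg _) (norm_nonneg _)
            rw [ex_mem _ hs']
            exact ih ⟨s, hs'⟩
        _ = _ := by rw [mul_pow]; ring
    have h2 : ‖∫ s in (0:ℝ)..r, ex p s * ex ((TT p ^ n) z) s‖ ≤
        ∫ s in (0:ℝ)..r, ‖p‖ ^ (n+1) / n.factorial * ‖z‖ * s ^ n := by
      refine intervalIntegral.norm_integral_le_of_norm_le hr ?_ ?_
      · refine Filter.Eventually.of_forall ?_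
        intro s hs
        refine h1 s ?_
        rw [uIcc_of_le hr]
        exact ⟨hs.1.le, hs.2⟩
      · exact (by fun_prop : Continuous fun s : ℝ =>
          ‖p‖ ^ (n+1) / n.factorial * ‖z‖ * s ^ n).intervalIntegrable _ _
    refine h2.trans (le_of_eq ?_)
    rw [intervalIntegral.integral_const_mul, integral_pow, Nat.factorial_succ]
    have : (n.factorial : ℝ) ≠ 0 := by exact_mod_cast n.factorial_ne_zero
    have h3 : ((n:ℝ)+1) ≠ 0 := by positivity
    push_cast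
    field_simp
    ring

lemma TT_summable (p : Z A) : Summable (fun n : ℕ => (TT p) ^ n) := by
  refine Summable.of_norm_bounded (g := fun n : ℕ => ‖p‖ ^ n / n.factorial)
    (Real.summable_pow_div_factorial _) ?_
  intro n
  refine ContinuousLinearMap.opNorm_le_bound _ (by positivity) ?_
  intro z
  refine norm_le' _ (by positivity) ?_
  intro r
  refine (TT_pow p z n r).trans ?_
  have : (‖p‖ * r) ^ n ≤ ‖p‖ ^ n := by
    refine pow_le_pow_left₀ (mul_nonneg (norm_nonneg _) r.2.1) ?_ n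
    exact mul_le_of_le_one_right (norm_nonneg _) r.2.2
  gcongr

lemma TT_unit (p : Z A) : IsUnit (1 - TT p) := unit_of_summable _ (TT_summable p)

lemma TT_contDiff : ContDiff ℝ (⊤ : ℕ∞) (fun p : Z A => TT p) :=
  comp_mul_contDiff KK

/-- The solution of the Volterra equation. -/
noncomputable def YY (p : Z A) : Z A := Ring.inverse (1 - TT p) 1

lemma YY_contDiff : ContDiff ℝ (⊤ : ℕ∞) (fun p : Z A => YY p) := by
  have h := inv_contDiff (fun p : Z A => TT p) TT_contDiff TT_unit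
  exact h.clm_apply contDiff_const

lemma YY_eq (p : Z A) : YY p = 1 + TT p (YY p) := inv_solve _ (TT_unit p)

lemma YY_unique (p z : Z A) (h : z = 1 + TT p z) : z = YY p :=
  inv_unique _ (TT_unit p) z h

lemma YY_apply (p : Z A) (r : Icc (0:ℝ) 1) :
    va (YY p) r = 1 + ∫ s in (0:ℝ)..r, ex p s * ex (YY p) s := by
  conv_lhs => rw [YY_eq p]
  rfl

/-- The identity from the space of continuous functions. -/
noncomputable def io : C(Icc (0:ℝ) 1, A) →L[ℝ] Z A :=
  LinearMap.mkContinuous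
    { toFun := fun z => z
      map_add' := fun _ _ => rfl
      map_smul' := fun _ _ => rfl } 1 (by
      intro z
      rw [one_mul]
      exact le_of_eq rfl)

lemma io_va (z : C(Icc (0:ℝ) 1, A)) (s : Icc (0:ℝ) 1) : va (io z) s = z s := rfl

/-- Evaluation. -/
noncomputable def ev (r : Icc (0:ℝ) 1) : Z A →L[ℝ] A :=
  LinearMap.mkContinuous
    { toFun := fun z => va z r
      map_add' := fun _ _ => rfl
      map_smul' := fun _ _ => rfl } 1 (by
      intro z
      rw [one_mul]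
      exact va_norm z r)

lemma ev_apply (z : Z A) (s : Icc (0:ℝ) 1) : ev s z = va z s := rfl

end Volterra

theorem lsd (nem : NEM) : LSD := by
  intro E _ _ _ B hB
  set a : W → ℝ → (E →L[ℝ] E) := fun ξ s => - B (s • ξ) ξ with ha
  have ha1 : ContDiff ℝ (⊤ : ℕ∞) (fun p : W × ℝ => a p.1 p.2) := by
    have h1 : ContDiff ℝ (⊤ : ℕ∞) (fun p : W × ℝ => B (p.2 • p.1)) :=
      hB.comp (contDiff_snd.smul contDiff_fst)
    exact (h1.clm_apply contDiff_fst).neg
  obtain ⟨Φ0, hΦ01, hΦ02⟩ := nem W (E →L[ℝ] E) a ha1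
  set Φ : W → Z (E →L[ℝ] E) := fun ξ => io (Φ0 ξ) with hΦdef
  have hΦ1 : ∀ ξ s, va (Φ ξ) s = a ξ s := fun ξ s => hΦ01 ξ s
  have hio : ContDiff ℝ (⊤ : ℕ∞) (io (A := E →L[ℝ] E)) := (io (A := E →L[ℝ] E)).contDiff
  have hΦ2 : ContDiff ℝ (⊤ : ℕ∞) Φ := hio.comp hΦ02
  have hYc : ContDiff ℝ (⊤ : ℕ∞) (fun ξ : W => YY (Φ ξ)) := YY_contDiff.comp hΦ2
  set U : W → (E →L[ℝ] E) := fun ξ => va (YY (Φ ξ)) ⟨1, by simp⟩ with hU
  have hUc : ContDiff ℝ (⊤ : ℕ∞) U := by
    have hL : ContDiff ℝ (⊤ : ℕ∞) (ev (A := E →L[ℝ] E) ⟨1, by simp⟩) :=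
      (ev (A := E →L[ℝ] E) ⟨1, by simp⟩).contDiff
    exact hL.comp hYc
  have hexΦ : ∀ ξ, ∀ s ∈ Icc (0:ℝ) 1, ex (Φ ξ) s = a ξ s := by
    intro ξ s hs
    rw [ex_mem _ hs, hΦ1]
  refine ⟨U, hUc, ?_, ?_⟩
  · have h0 : Φ 0 = 0 := by
      apply va_ext
      intro s
      rw [hΦ1]
      simp only [ha, map_zero, neg_zero]
      rfl
    have h1 : (1 : Z (E →L[ℝ] E)) = YY (Φ 0) := by
      refine YY_unique _ _ ?_
      rw [h0]
      simp [TT]
    change va (YY (Φ 0)) _ = _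
    rw [← h1]
    rfl
  · intro ξ
    -- scaling
    have hsc : ∀ t : Icc (0:ℝ) 1, U ((t:ℝ) • ξ) = va (YY (Φ ξ)) t := by
      intro t
      have ht0 := t.2.1
      have ht1 := t.2.2
      have hmem : ∀ r : Icc (0:ℝ) 1, (t:ℝ) * r ∈ Icc (0:ℝ) 1 := fun r =>
        ⟨mul_nonneg ht0 r.2.1, mul_le_one₀ ht1 r.2.1 r.2.2⟩
      let z : Z (E →L[ℝ] E) :=
        (⟨fun r => ex (YY (Φ ξ)) ((t:ℝ) * r), by
          exact (ex_cont _).comp (continuous_const.mul continuous_subtype_val)⟩ :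
            C(Icc (0:ℝ) 1, E →L[ℝ] E))
      have hzv : ∀ r, va z r = ex (YY (Φ ξ)) ((t:ℝ) * r) := fun r => rfl
      have hz : z = YY (Φ ((t:ℝ) • ξ)) := by
        refine YY_unique _ _ ?_
        apply va_ext
        intro r
        rw [va_add, va_one, TT_apply, hzv, ex_mem _ (hmem r), YY_apply]
        congr 1
        have e2 := intervalIntegral.smul_integral_comp_mul_left (a := (0:ℝ)) (b := (r:ℝ))
          (fun s => ex (Φ ξ) s * ex (YY (Φ ξ)) s) (t:ℝ)
        rw [mul_zero] at e2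
        change (∫ s in (0:ℝ)..((t:ℝ) * r), ex (Φ ξ) s * ex (YY (Φ ξ)) s) = _
        rw [← e2, ← intervalIntegral.integral_smul]
        refine intervalIntegral.integral_congr ?_
        intro s hs
        rw [uIcc_of_le r.2.1] at hs
        have hs1 : s ∈ Icc (0:ℝ) 1 := ⟨hs.1, hs.2.trans r.2.2⟩
        have hs2 : (t:ℝ) * s ∈ Icc (0:ℝ) 1 := hmem ⟨s, hs1⟩
        change (t:ℝ) • (ex (Φ ξ) ((t:ℝ) * s) * ex (YY (Φ ξ)) ((t:ℝ) * s)) =
          ex (Φ ((t:ℝ) • ξ)) s * ex z s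
        rw [hexΦ _ _ hs2, hexΦ _ _ hs1, ex_mem z hs1, hzv]
        change _ = a ((t:ℝ) • ξ) s * ex (YY (Φ ξ)) ((t:ℝ) * s)
        rw [← smul_mul_assoc]
        congr 1
        simp only [ha, map_smul, smul_neg, smul_smul]
        rw [mul_comm s (t:ℝ)]
      change va (YY (Φ ((t:ℝ) • ξ))) ⟨1, _⟩ = _
      rw [← hz, hzv]
      change ex (YY (Φ ξ)) ((t:ℝ) * 1) = _
      rw [mul_one, ex_val]
    -- derivatives at 1
    have hd1 : HasDerivAt (fun t : ℝ => U (t • ξ)) (fderiv ℝ U ξ ξ) 1 := by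
      have h1 : HasDerivAt (fun t : ℝ => t • ξ) ξ 1 := by
        simpa using (hasDerivAt_id (1:ℝ)).smul_const ξ
      have h2 : HasFDerivAt U (fderiv ℝ U ξ) ((1:ℝ) • ξ) := by
        rw [one_smul]
        exact (hUc.differentiable (by simp)).differentiableAt.hasFDerivAt
      exact h2.comp_hasDerivAt (1:ℝ) h1
    have hcont : Continuous (fun s : ℝ => a ξ s * ex (YY (Φ ξ)) s) := by
      refine Continuous.mul ?_ (ex_cont _)
      exact ha1.continuous.comp (by fun_prop : Continuous fun s : ℝ => (ξ, s))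
    have hd2 : HasDerivAt (fun t : ℝ => (1 : E →L[ℝ] E) +
        ∫ s in (0:ℝ)..t, a ξ s * ex (YY (Φ ξ)) s) (a ξ 1 * ex (YY (Φ ξ)) 1) 1 := by
      refine HasDerivAt.const_add _ ?_
      exact intervalIntegral.integral_hasDerivAt_right (hcont.intervalIntegrable _ _)
        (hcont.stronglyMeasurableAtFilter _ _) hcont.continuousAt
    have hag : ∀ t ∈ Icc (0:ℝ) 1, U (t • ξ) = (1 : E →L[ℝ] E) +
        ∫ s in (0:ℝ)..t, a ξ s * ex (YY (Φ ξ)) s := by
      intro t ht
      have h5 := hsc ⟨t, ht⟩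
      change U (t • ξ) = _ at h5
      rw [h5, YY_apply]
      congr 1
      refine intervalIntegral.integral_congr ?_
      intro s hs
      change s ∈ uIcc (0:ℝ) t at hs
      rw [uIcc_of_le ht.1] at hs
      have hs1 : s ∈ Icc (0:ℝ) 1 := ⟨hs.1, hs.2.trans ht.2⟩
      simp only
      rw [hexΦ _ _ hs1]
    have h1m : (1:ℝ) ∈ Icc (0:ℝ) 1 := by simp
    have hw1 := hd1.hasDerivWithinAt (s := Icc (0:ℝ) 1)
    have hw2 := (hd2.hasDerivWithinAt (s := Icc (0:ℝ) 1)).congr hag (hag 1 h1m)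
    have hun := (uniqueDiffOn_Icc (zero_lt_one (α := ℝ))) 1 h1m
    have hfin := hun.eq_deriv _ hw1 hw2
    rw [hfin, ex_mem _ h1m]
    simp only [ha, one_smul]
    rw [neg_mul]
    rfl

end Pool.Agent.Helper2.RF
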